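import Pool.Agent.H37.CNL.Stmts

/-! Board cnl, row VTG (adapted from row ITG of board cnk, helper55). -/

set_option autoImplicit false

namespace Pool.CND

open Finset

theorem vtg99_sm {G : Type} [Fintype G] (b : G → ℤ) (T : Set G) [DecidablePred (fun g => g ∈ T)] :
    sm b T = ∑ g, if g ∈ T then b g else 0 := by
  unfold sm
  rw [Finset.sum_filter]
  refine Finset.sum_congr rfl (fun g _ => ?_)
  by_cases h : g ∈ T
  · rw [if_pos h, if_pos h]
  · rw [if_neg h, if_neg h]

theorem vtg_thm (hVHY : S_VHY) (hVVV : S_VVV) (hVVG : S_VVG) (hVAS : S_VAS) (hTOT : S_TOT) :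
    S_VTG := by
  classical
  intro p k L G _ _ _ _ _ _ ρ t P Δ z hcv hp2 hz hcen hle
  have hpp : p.Prime := hcv.pr
  have : Fact p.Prime := ⟨hpp⟩
  have : CharP k p := hcv.ch
  obtain ⟨-, hfix, hordt, -, hinj⟩ := hVAS p k L G ρ t P Δ hcv
  have hDD := hcv.dd
  have hΔ := hcv.cm
  -- the character
  have hex : ∀ g : G, ∃ i : ℤ, g ∈ Subgroup.zpowers z → z ^ i = g := by
    intro g
    by_cases hg : g ∈ Subgroup.zpowers z
    · obtain ⟨i, hi⟩ := Subgroup.mem_zpowers_iff.1 hg
      exact ⟨i, fun _ => hi⟩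
    · exact ⟨0, fun h => absurd h hg⟩
  choose κ hκ using hex
  have hzz : ∀ i j : ℤ, z ^ i = z ^ j ↔ (i : ZMod p) = j := by
    intro i j
    rw [zpow_eq_zpow_iff_modEq, hz, ZMod.intCast_eq_intCast_iff]
  let χ : G → ZMod p := fun g => (κ g : ZMod p)
  have hMn : (Subgroup.zpowers z).Normal := by
    refine ⟨fun n hn g => ?_⟩
    obtain ⟨i, rfl⟩ := Subgroup.mem_zpowers_iff.1 hn
    have h1 : Commute g (z ^ i) := Commute.zpow_right (hcen g) i
    rw [h1.eq, mul_assoc, mul_inv_cancel, mul_one]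
    exact hn
  have hzM : z ∈ Subgroup.zpowers z := Subgroup.mem_zpowers z
  have hχadd : ∀ a ∈ Subgroup.zpowers z, ∀ b ∈ Subgroup.zpowers z, χ (a * b) = χ a + χ b := by
    intro a ha b hb
    have h1 := hκ (a * b) (Subgroup.mul_mem _ ha hb)
    have h2 : z ^ (κ a + κ b) = a * b := by rw [zpow_add, hκ a ha, hκ b hb]
    have h3 := (hzz _ _).1 (h1.trans h2.symm)
    show ((κ (a * b) : ℤ) : ZMod p) = (κ a : ZMod p) + (κ b : ZMod p)
    rw [h3, Int.cast_add]
  have hχ0 : ∀ a ∈ Subgroup.zpowers z, χ a = 0 ↔ a ∈ (⊥ : Subgroup G) := by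
    intro a ha
    have h1 := hκ a ha
    rw [Subgroup.mem_bot]
    constructor
    · intro h
      have h2 : ((κ a : ℤ) : ZMod p) = ((0 : ℤ) : ZMod p) := by rw [Int.cast_zero]; exact h
      rw [← hzz, zpow_zero] at h2
      rw [← h1, h2]
    · intro h
      rw [h, ← zpow_zero z, hzz, Int.cast_zero] at h1
      show ((κ a : ℤ) : ZMod p) = 0
      rw [h]
      rw [zpow_zero] at h1
      exact h1
  have hχz : χ z = 1 := by
    have h1 := hκ z hzM
    have h2 : z ^ (κ z) = z ^ (1 : ℤ) := by rw [h1, zpow_one]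
    rw [hzz, Int.cast_one] at h2
    exact h2
  obtain ⟨y, u, hyb, hya, hyo, hpu, hu1, hsm⟩ := hVHY p k L G ρ t P Δ (Subgroup.zpowers z) ⊥ χ hcv
    hMn inferInstance bot_le hχadd hχ0 ⟨z, hzM, by rw [hχz]; exact one_ne_zero⟩
  rw [Subgroup.card_bot, one_mul] at hyo
  have hyz : ρ z y = y + 1 := by
    rw [hya z hzM, hχz]
    unfold fp
    rw [map_one, map_one]
  have hy0 : y ≠ 0 := by
    intro h
    rw [h, map_zero, zero_add] at hyz
    exact zero_ne_one hyz
  -- the numbers b
  have hbu : ∀ g ∈ Subgroup.zpowers z, g ≠ 1 → P.b (ρ g) = u := by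
    intro g hg hg1
    have h1 := hsm g hg (by rwa [Subgroup.mem_bot])
    rw [Subgroup.card_bot, Nat.cast_one, one_mul, vtg99_sm] at h1
    rw [← h1]
    have h2 : ∀ x : G, (if x ∈ {x : G | g⁻¹ * x ∈ (⊥ : Subgroup G)} then P.b (ρ x) else 0) =
        if x = g then P.b (ρ x) else 0 := by
      intro x
      by_cases hx : x = g
      · rw [if_pos hx, if_pos]
        show g⁻¹ * x ∈ (⊥ : Subgroup G)
        rw [hx, inv_mul_cancel]
        exact Subgroup.one_mem _
      · rw [if_neg hx, if_neg]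
        intro h
        have h3 : g⁻¹ * x ∈ (⊥ : Subgroup G) := h
        rw [Subgroup.mem_bot] at h3
        exact hx (inv_mul_eq_one.1 h3).symm
    rw [Finset.sum_congr rfl (fun x _ => h2 x), Finset.sum_ite_eq' Finset.univ g,
      if_pos (Finset.mem_univ g)]
  have hz1 : z ≠ 1 := by
    intro h
    rw [h, orderOf_one] at hz
    exact hpp.one_lt.ne hz
  have hbz : P.b (ρ z) = u := hbu z hzM hz1
  have hcardM : ∑ g : G, (if g ∈ Subgroup.zpowers z then (u : ℤ) else 0) = p * u := by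
    rw [← Finset.sum_filter, Finset.sum_const, nsmul_eq_mul]
    have h1 : (Finset.univ.filter (fun g : G => g ∈ Subgroup.zpowers z)).card = p := by
      rw [← hz, ← Nat.card_zpowers, ← Set.ncard_coe_finset]
      show _ = Nat.card ((Subgroup.zpowers z : Subgroup G) : Set G)
      rw [Nat.card_coe_set_eq]
      congr 1
      ext g
      simp
    rw [h1]
  have hSo : So P ρ ⊥ = So P ρ (Subgroup.zpowers z) + (p - 1) * u := by
    unfold So
    rw [vtg99_sm, vtg99_sm]
    have h1 : ∀ g : G, (if g ∈ {g : G | g ∉ (⊥ : Subgroup G)} then P.b (ρ g) else 0) =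
        (if g ∈ {g : G | g ∉ Subgroup.zpowers z} then P.b (ρ g) else 0) +
        ((if g ∈ Subgroup.zpowers z then (u : ℤ) else 0) - (if g = 1 then (u : ℤ) else 0)) := by
      intro g
      by_cases hg : g ∈ Subgroup.zpowers z
      · by_cases hg1 : g = 1
        · rw [if_neg (by
            show ¬ g ∉ (⊥ : Subgroup G)
            rw [hg1]
            exact fun h => h (Subgroup.one_mem _)), if_neg (by
            show ¬ g ∉ Subgroup.zpowers z
            exact fun h => h hg), if_pos hg, if_pos hg1]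
          ring
        · rw [if_pos (by
            show g ∉ (⊥ : Subgroup G)
            rwa [Subgroup.mem_bot]), if_neg (by
            show ¬ g ∉ Subgroup.zpowers z
            exact fun h => h hg), if_pos hg, if_neg hg1, hbu g hg hg1]
          ring
      · have hg1 : g ≠ 1 := fun h => hg (h ▸ Subgroup.one_mem _)
        rw [if_pos (by
            show g ∉ (⊥ : Subgroup G)
            rwa [Subgroup.mem_bot]), if_pos (by
            show g ∉ Subgroup.zpowers z
            exact hg), if_neg hg, if_neg hg1]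
        ring
    rw [Finset.sum_congr rfl (fun g _ => h1 g), Finset.sum_add_distrib, Finset.sum_sub_distrib,
      hcardM, Finset.sum_ite_eq' Finset.univ (1 : G), if_pos (Finset.mem_univ (1 : G))]
    ring
  -- the order of the derivative
  obtain ⟨m, hm1, -, hm2⟩ := hVVV p k L G ρ t P Δ ⊥ hcv inferInstance y hy0 hyb
  rw [Subgroup.card_bot, Nat.cast_one, one_mul] at hm1
  obtain ⟨hF0, hFord⟩ := hm2 (by
    rw [← hm1, hyo, dvd_neg]
    intro h
    exact hpu (Int.natCast_dvd_natCast.1 h))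
  rw [hyo, hSo] at hFord
  have hDsub : ∀ a b : L, Δ (a - b) = Δ a - Δ b := by
    intro a b
    have h1 := hDD.add (a - b) b
    rw [sub_add_cancel] at h1
    rw [h1, add_sub_cancel_right]
  have hD1 : Δ 1 = 0 := by
    have h1 := hDD.con (1 : k)
    rwa [map_one] at h1
  have hgF : ∀ g : G, P.Ge (ρ g (Δ y) - Δ y) (-((u : ℤ) + So P ρ (Subgroup.zpowers z))) := by
    intro g
    rw [← hΔ, ← hDsub]
    by_cases h0 : ρ g y - y = 0
    · rw [h0]
      have h1 : Δ 0 = 0 := by
        have h2 := hDD.con (0 : k)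
        rwa [map_zero] at h2
      rw [h1]
      exact P.ge_zero _
    · have hy' : P.Ge y (-(u : ℤ)) := Or.inr (by rw [hyo])
      have hge : P.Ge (ρ g y - y) (-(u : ℤ)) := P.ge_sub ((hfix g).ge hy') hy'
      have hinv : ∀ a ∈ Subgroup.zpowers z, ρ a (ρ g y - y) = ρ g y - y := by
        intro a ha
        have hcom : a * g = g * a := by
          rw [← hκ a ha]
          exact (Commute.zpow_right (hcen g) (κ a)).eq.symm
        rw [map_sub, ← AlgEquiv.mul_apply, ← map_mul, hcom, map_mul, AlgEquiv.mul_apply,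
          hya a ha, map_add, AlgEquiv.commutes]
        ring
      obtain ⟨m', -, hm', -⟩ := hVVV p k L G ρ t P Δ (Subgroup.zpowers z) hcv hMn _ h0 hinv
      refine P.ge_mono hm' ?_
      have h3 := hge.resolve_left h0
      linarith
  have hFinv : ∀ a ∈ Subgroup.zpowers z, ρ a (Δ y) = Δ y := by
    intro a ha
    rw [← hΔ, hya a ha, hDD.add, hDD.con, add_zero]
  obtain ⟨F₀, hF₀, hGe⟩ := hVVG p k L G ρ t P Δ (Subgroup.zpowers z) (Δ y)
    (-((u : ℤ) + So P ρ (Subgroup.zpowers z))) hcv hMn hFinv hgF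
  -- the order of F₀
  rw [hbz] at hle
  have hp3 : (3 : ℤ) ≤ p := by
    have h1 : 2 ≤ p := hpp.two_le
    have h2 : 3 ≤ p := by omega
    exact_mod_cast h2
  have hu1' : (1 : ℤ) ≤ u := by exact_mod_cast hu1
  have hS : So P ρ (Subgroup.zpowers z) < (p - 1) * u := by
    have h1 : (p : ℤ) * u < (p - 1) * ((p - 1) * u) := by
      have h0 : (0 : ℤ) < ((p : ℤ) - 1) * (p - 1) - p := by nlinarith
      have h3 := mul_pos h0 (by linarith : (0 : ℤ) < u)
      have h4 : ((p : ℤ) - 1) * ((p - 1) * u) - p * u = (((p : ℤ) - 1) * (p - 1) - p) * u := by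
        ring
      linarith
    have h2 : ((p : ℤ) - 1) * So P ρ (Subgroup.zpowers z) < (p - 1) * ((p - 1) * u) :=
      lt_of_le_of_lt hle h1
    exact lt_of_mul_lt_mul_left h2 (by linarith)
  have hGe' : P.Ge (-(Δ y - F₀)) (P.ord (Δ y) + 1) := by
    apply P.ge_neg
    refine P.ge_mono hGe ?_
    rw [hFord]
    linarith
  obtain ⟨hF1, hF2⟩ := P.ord_add_of_lt hF0 hGe'
  have hF3 : Δ y + -(Δ y - F₀) = F₀ := by ring
  rw [hF3] at hF1 hF2
  obtain ⟨n, hn⟩ := hTOT k L G P ρ ⊤ hinj (fun n _ => hfix n) F₀ hF1 (fun n _ => hF₀ n)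
  rw [Subgroup.card_top] at hn
  refine ⟨-n, ?_⟩
  rw [hF2, hFord] at hn
  rw [hbz]
  linarith

end Pool.CND
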